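import Pool.Agent.T2H23.LG.LClass

/-!
# Lang's equivalence for almost all systems of monomials

Let `X` be the projective variety over a number field `K` given by forms `F e`. The statement
`OrbitLang κ` (`Pool/Agent/T2H23/LG/OStm.lean`) for `X` says: there is a closed subset `S` of `X`,
defined over `K`, such that for all embeddings `σ : K → ℂ` and all closed sets `Z`, defined over `K`,
the following are equivalent:

* (`FormsIn`) `Z` contains `S`;
* (`Hyperbolic`) all nonconstant entire curves in `X_σ` lie in `Z_σ`;
* (`NoOrbit`) for all finite extensions `L` of `K` all nonconstant orbits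
  `t ↦ (t ^ b_0 x_0 : … : t ^ b_N x_N)` in `X`, defined over `L`, lie in `Z`;
* (`NoRational`) for all `L` every nonconstant map, defined over `L`, from the projective line to `X`
  has its image in `Z`;
* (`NoGenusOne`) the same for maps from the projective line and from elliptic curves;
* (`ShortFinite`) for all `L`, all finitely generated groups `Γ` of nonzero elements of `L` and all
  `r` there is `δ > 0` such that only finitely many points `c` of `X(L)` outside of `Z` have
  homogeneous coordinates which are sums of `r` elements of `Γ` with coefficients in `L` of height at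
  most `H(c) ^ δ`;
* (`UnitFinite`) for all `L` and `Γ` only finitely many points of `X(L)` outside of `Z` have
  homogeneous coordinates in `Γ ∪ {0}`;
* (`UnitSlow`) the number of these points of height at most `H` is `o(log H)`.

Moreover, these conditions hold if for all `L` the number of the points of `X(L)` outside of `Z` of
absolute height at most `B` is `O(B ^ κ)` (`FewPoints κ`), in particular if `X(L)` has only finitely
many points outside of `Z` for all `L` (`Finiteness`). So one direction of Lang's conjecture holds for
`X`, in a strong form, and relative to all closed subsets `Z`; the special set `S` does not depend on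
the embedding.

The theorem: (1) For every system of sets of exponent vectors which is wide (`WideT`,
`Pool/Agent/R869/WHgt.lean`) there is `κ > 0` such that `OrbitLang κ` holds for all systems of forms
with these exponents over all number fields.

(2) For all `n`, `s` and all nonempty sets `I 1, …, I s` of variables, for almost all tuples of
monomials of degree `d` in `n + 1` variables, the `i`-th one in the variables from `I i`, there is
`κ > 0` such that for all number fields `K`: `OrbitLang κ` holds for all varieties given by linear
combinations (with arbitrary coefficients in `K`) of these monomials and of the `x_j ^ d`; for the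
hypersurfaces among them there is a combinatorial criterion (`Loose`,
`Pool/Agent/R869/USharpDefs.lean`) for the hyperbolicity; if any `m` of the coefficient vectors of the
`m` linear combinations are linearly independent and the `I i` are well spread (`Spread`), then `X_σ`
is hyperbolic, for all embeddings `σ`.

(3) The `I i` are well spread, with respect to `m ≥ 1`, if all sets of `2 m + 2` variables are among
the `I i` and all `I i` have at least `m + 1` elements.

The proof uses the files `R869` of another helper for the complex side.
-/

set_option autoImplicit false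

namespace Pool.Agent.Results.MP_f82ddf_nt.AlmostAllLang

open MvPolynomial Pool.Agent.T2H23.EL Pool.Agent.T2H23.LG Pool.Agent.R869.Wd

/-- **Lang's equivalence for almost all systems of monomials.** -/
theorem result :
    (∀ (n s N : ℕ) (ι : Type) [Finite ι] (T : ι → Finset (Fin (n + 1) →₀ ℕ)), 1 ≤ s →
      (∀ e, (T e).card ≤ s) → WideT ∅ T N → n * (s * ((s - 1) * (s - 2) / 2)) < N →
      ∃ κ : ℝ, 0 < κ ∧ ∀ (K : Type) [Field K] [NumberField K]
        (F : ι → MvPolynomial (Fin (n + 1)) K), (∀ e, ∃ d, (F e).IsHomogeneous d) →
        (∀ e, (F e).support ⊆ T e) → OrbitLang κ (Ideal.span (Set.range F))) ∧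
    (∀ (n s : ℕ) (I : Fin s → Finset (Fin (n + 1))), (∀ i, (I i).Nonempty) →
      AlmostAllIn I fun d a => ∃ κ : ℝ, 0 < κ ∧ ∀ (K : Type) [Field K] [NumberField K],
        (∀ (m : ℕ) (F : Fin m → MvPolynomial (Fin (n + 1)) K),
          (∀ e, (F e).support ⊆ withPowers d a) → OrbitLang κ (Ideal.span (Set.range F)) ∧
          (GenCoeffs F (withPowers d a) → (∀ J, Spread I m J) →
            ∀ σ : K →+* ℂ, Hyperbolic σ (Ideal.span (Set.range F)) ⊤)) ∧
        ∀ F : MvPolynomial (Fin (n + 1)) K, F.support ⊆ withPowers d a →
          ∀ σ : K →+* ℂ, Hyperbolic σ (Ideal.span {F}) ⊤ ↔ ∀ J, ¬ Loose F J) ∧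
    ∀ (n m s : ℕ) (I : Fin s → Finset (Fin (n + 1))), 1 ≤ m → (∀ i, m + 1 ≤ (I i).card) →
      (∀ A : Finset (Fin (n + 1)), A.card = 2 * m + 2 → ∃ i, I i = A) → ∀ J, Spread I m J := by
  classical
  refine ⟨?_, ?_, fun n m s I hm hI hall => spread_all hm hI hall⟩
  · intro n s N ι _ T hs hc hW hN
    obtain ⟨B, δ, hB, hsw⟩ := exists_groups T
    obtain ⟨κ, hκ, hδκ⟩ := exists_kappa δ
    refine ⟨κ, hκ, fun K _ _ F hF hT => ?_⟩
    refine orbitLang_of hF hB (fun σ => ?_) hκ.le hδκ
    exact hsw ι _ s N (fun e => ⟨e, (supp_map σ (F e)).subset.trans (hT e)⟩)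
      (sys_map hF hs hc hT hW hN σ)
  · intro n s I hI
    refine almost_typI hI fun d a hty => ?_
    obtain ⟨s', N, hg⟩ := hty.good
    obtain ⟨B, δ, hB, hsw⟩ := exists_groups fun _ : Unit => withPowers d a
    obtain ⟨κ, hκ, hδκ⟩ := exists_kappa δ
    refine ⟨κ, hκ, fun K _ _ => ?_⟩
    have hmap : ∀ (σ : K →+* ℂ) (F : MvPolynomial (Fin (n + 1)) K), F.support ⊆ withPowers d a →
        (map σ F).support ⊆ withPowers d a := fun σ F hF => (supp_map σ F).subset.trans hF
    refine ⟨fun m F hFT => ?_, fun F hF σ => ?_⟩
    · have hF : ∀ e, ∃ d, (F e).IsHomogeneous d := fun e => hg.form (hFT e)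
      refine ⟨?_, fun hgc hsp σ => ?_⟩
      · refine orbitLang_of hF hB (fun σ => ?_) hκ.le hδκ
        exact hsw (Fin m) _ s' N (fun e => ⟨(), hmap σ _ (hFT e)⟩)
          (hg.sys (fun e => hmap σ _ (hFT e)) ∅)
      · rw [hyperbolic_iff hF σ, Set.eq_empty_iff_forall_notMem]
        intro x hx
        obtain ⟨J, hJ, -⟩ := hty.special (fun e => hmap σ _ (hFT e)) (genCoeffs_map hgc σ) hx
        exact hJ (hsp J)
    · have h1 := hyperbolic_iff (F := fun _ : Fin 1 => F) (fun _ => hg.form hF) σ
      have h2 : Set.range (fun _ : Fin 1 => F) = {F} := by
        ext G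
        simp [eq_comm]
      rw [h2] at h1
      rw [h1, hty.spH_empty (hmap σ F hF)]
      have h3 : ∀ J, Loose (map σ F) J ↔ Loose F J := by
        intro J
        unfold Loose Splits monIn
        rw [supp_map]
      simp only [h3]
      exact ⟨fun h J => h J fun j hj => absurd hj (Set.notMem_empty j), fun h J _ => h J⟩

end Pool.Agent.Results.MP_f82ddf_nt.AlmostAllLang
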