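import Pool.Agent.T2H23.EL.Main

/-!
# Lang's equivalence for curves and points coming from elliptic curves

Let `X` and `Z` be the projective varieties over a number field `K`, embedded in `ℂ` by `σ`, given by
the forms in the ideals `I` and `I'` of `K[x_0, ..., x_N]` (for `I' = ⊤` the variety `Z` is empty).
The definitions are in `Pool/Agent/T2H23/EL/Stm.lean`. The following are equivalent:

* (`TorusHyperbolic`) every nonconstant holomorphic map from a complex torus of dimension one to the
  complex variety `X` has its image in `Z`;
* (`IteratedHyperbolic`) every nonconstant entire curve in the complex variety `X` with homogeneous
  coordinates given by iterated linear differential equations, over a differential ring of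
  meromorphic functions of transcendence degree at most one (for example the ring of the elliptic
  functions with given periods), lies in `Z`;
* (`FunctionalHyperbolic`) for every nonconstant entire curve in the complex variety `X` which does
  not lie in `Z`, the entire functions `τ`, such that the homogeneous coordinates of the curve satisfy
  linear functional equations with respect to `τ` over a field of meromorphic functions of
  transcendence degree at most one which is closed under the composition with `τ`, are
  translations by rational multiples of one number;
* (`NoGenusOne`) for all finite extensions `L` of `K` there is no nonconstant map, defined over `L`,
  from the projective line or an elliptic curve to `X` with image not contained in `Z`;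
* (`UniformFinite`) there is a constant `C` such that for all finite extensions `L` of `K`, all
  elliptic curves `E : y² = x³ + a x + b` over `L` and all rational maps `f` of degree at most `D`
  from `E` to the projective space, defined over `L`, at most `C (D + 1)` of the points in `f(E(L))`
  are points of `X` outside of `Z`;
* (`MordellWeilFinite`) for all `L`, `E` and `f` only finitely many of the points in `f(E(L))` are
  points of `X` outside of `Z`;
* (`DoublingFinite`) for all `L`, `E`, `f` and `p` in `E(L)` such that all points `f(2 ^ m • p)` are
  points of `X` outside of `Z`, only finitely many of these points are different;
* (`TowerPeriodic`) for all `L`, all embeddings of `L` in `ℂ` and all fields of sequences `B` obtained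
  from a finitely generated field of sequences of transcendence degree at most one (for example the
  rational functions of the points of an orbit of a self-map of a curve, such as `x_{m+1} = x_m² + 1`)
  by repeatedly adjoining solutions of linear recurrences, all sequences of points of `X(L)` outside
  of `Z`, with homogeneous coordinates satisfying linear recurrences over `B`, are eventually
  periodic.

Both sides of Lang's conjecture, for `Z` instead of the empty set, imply these conditions. All
conditions but the first three do not depend on `σ`.

The proof uses the files `Y719/LC`, `Y377/IL`, `Y189/DC`, `TH143` and `TH600` of other helpers.
-/

set_option autoImplicit false

namespace Pool.Agent.Results.MP_f82ddf_nt.EllipticLang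

open Pool.Agent.T2H23.EL

theorem result {K : Type} [Field K] [NumberField K] (σ : K →+* ℂ) {N : ℕ}
    (I I' : Ideal (MvPolynomial (Fin (N + 1)) K)) :
    [TorusHyperbolic σ I I', IteratedHyperbolic σ I I', FunctionalHyperbolic σ I I',
      NoGenusOne I I', UniformFinite I I', MordellWeilFinite I I', DoublingFinite I I',
      TowerPeriodic I I'].TFAE ∧
    (Hyperbolic σ I I' → NoGenusOne I I') ∧ (Finiteness I I' → NoGenusOne I I') :=
  main σ I I'

end Pool.Agent.Results.MP_f82ddf_nt.EllipticLang
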