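import Pool.Agent.T2H23.LG.PMain

/-!
# Lang's equivalence for the varieties of vectors whose powers are values of a polynomial

Let `K` be a number field, `a_0, …, a_N` different elements of `K`, `m ≥ 2` and `N ≥ 4 n`. We consider
the variety `Y` of the points of `P^N` with homogeneous coordinates `x_0, …, x_N` such that there is a
polynomial `H` of degree at most `n` with `x_i ^ m = H(a_i)` for all `i` (`powerValues`). For
`m = n = 2` and `a_i = i` these are Büchi's surfaces, and Büchi's problem asks for their rational
points outside of the lines. Let `X` be `Y`, or, if `n < 2 m`, ANY closed subvariety of `Y`, defined
over `K`.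

Theorem (`LineLang`, `Pool/Agent/T2H23/LG/PStm.lean`): there is a closed subset `S` of `X`, defined
over `K`, such that for all embeddings `σ : K → ℂ` and all closed sets `Z`, defined over `K`, the
following are equivalent:

* (`FormsIn`) `Z` contains `S`;
* (`Hyperbolic`) all nonconstant entire curves in `X_σ` lie in `Z_σ`;
* (`NoLines`) for all finite extensions `L` of `K` all lines in `X`, defined over `L`, lie in `Z`;
* (`NoRational`) for all `L` every nonconstant map, defined over `L`, from the projective line to `X`
  has its image in `Z`;
* (`NoGenusOne`) the same for maps from the projective line and from elliptic curves;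
* (`ShortFinite`) for all `L`, all finitely generated groups `Γ` of nonzero elements of `L` and all
  `r` there is `δ > 0` such that only finitely many points `c` of `X(L)` outside of `Z` have
  homogeneous coordinates which are sums of `r` elements of `Γ` with coefficients in `L` of height at
  most `H(c) ^ δ`;
* (`SumFinite`) for all `L`, `Γ` and `r` only finitely many points of `X(L)` outside of `Z` have
  homogeneous coordinates which are sums of at most `r` elements of `Γ`;
* (`SumSlow`) the number of these points of height at most `H` is `o(log H)`.

Moreover, these conditions hold if for all `L` the number of the points of `X(L)` outside of `Z` of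
absolute height at most `B` is `o(B ^ 2)` (`SubQuadratic`), in particular if `X(L)` has only finitely
many points outside of `Z` for all `L` (`Finiteness`).

So `X_σ` is hyperbolic if `X(L)` is finite for all `L`, and even if `X(L)` has `o(B ^ 2)` points of
height at most `B` for all `L`; and if `X_σ` is hyperbolic for one embedding `σ`, then for all
embeddings. For the complex side (the entire curves lie in the closure of the union of the lines) the
proof uses the files `Y190` of another helper.
-/

set_option autoImplicit false

namespace Pool.Agent.Results.MP_f82ddf_nt.PowerValuesLang

open Pool.Agent.T2H23.EL Pool.Agent.T2H23.LG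

/-- **Lang's equivalence for varieties of power values.** -/
theorem result {K : Type} [Field K] [NumberField K] {N n m : ℕ} (hm : 2 ≤ m) (hN : 4 * n ≤ N)
    {a : Fin (N + 1) → K} (ha : Function.Injective a)
    {I : Ideal (MvPolynomial (Fin (N + 1)) K)}
    (hI : I = powerValues a n m ∨ (n < 2 * m ∧ powerValues a n m ≤ I)) : LineLang I :=
  lineLang_powerValues hm hN ha hI

end Pool.Agent.Results.MP_f82ddf_nt.PowerValuesLang
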