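import Pool.Agent.T2H23.LG.UMain

/-!
# Lang's equivalence for sums of units

Let `X` and `Z` be the projective varieties over a number field `K`, embedded in `ℂ` by `σ`, given by
the forms in the ideals `I` and `I'` of `K[x_0, ..., x_N]` (for `I' = ⊤` the variety `Z` is empty).
The definitions are in `Pool/Agent/T2H23/LG/Stm.lean` and `Pool/Agent/T2H23/EL/Stm.lean`. The
following are equivalent:

* (`UnitHyperbolic`) every nonconstant entire curve in the complex variety `X` with homogeneous
  coordinates which are finite sums of entire functions without zeros lies in `Z`;
* (`NoRational`) for all finite extensions `L` of `K` every nonconstant map, defined over `L`, from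
  the projective line to `X` has its image in `Z`;
* (`ShortFinite`) for all finite extensions `L` of `K`, all finitely generated groups `Γ` of nonzero
  elements of `L` and all `r` there is `δ > 0` such that only finitely many points `c` of `X(L)`
  outside of `Z` have homogeneous coordinates which are sums of `r` elements of `Γ` with
  coefficients in `L` of height at most `H(c) ^ δ`;
* (`SumFinite`) for all `L`, `Γ` and `r` only finitely many points of `X(L)` outside of `Z` have
  homogeneous coordinates which are sums of at most `r` elements of `Γ`;
* (`SumSlow`) for all `L`, `Γ` and `r` the number of these points of height at most `H` is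
  `o(log H)`.

Here the group `Γ` and the number `r` of summands are arbitrary, and the variety `X` is arbitrary.
Both sides of Lang's conjecture, for `Z` instead of the empty set, imply these conditions, and it is
enough for them that the number of the points of `X(L)` outside of `Z` of height at most `H` is
`O(H ^ ε)` for all `L` and `ε > 0`.

The proof uses Borel's theorem on the identities between entire functions without zeros, and the
subspace theorem (the files of the starting point), in a version for sums of units with moving
coefficients of small height.
-/

set_option autoImplicit false

namespace Pool.Agent.Results.MP_f82ddf_nt.SumsOfUnitsLang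

open Pool.Agent.T2H23.EL Pool.Agent.T2H23.LG

theorem result {K : Type} [Field K] [NumberField K] (σ : K →+* ℂ) {N : ℕ}
    (I I' : Ideal (MvPolynomial (Fin (N + 1)) K)) :
    [UnitHyperbolic σ I I', NoRational I I', ShortFinite I I', SumFinite I I',
      SumSlow I I'].TFAE ∧
    (Hyperbolic σ I I' → ShortFinite I I') ∧ (Finiteness I I' → SubPolynomial I I') ∧
    (SubPolynomial I I' → ShortFinite I I') :=
  main σ I I'

end Pool.Agent.Results.MP_f82ddf_nt.SumsOfUnitsLang
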